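import Mathlib

set_option autoImplicit false

namespace Pool.Agent.Results.MP_5e2b9f_al.NotSupportable

/-- The centralizer `C(T)` of a subset. -/
def C {S : Type} [Semigroup S] (T : Set S) : Set S := {g | ∀ f ∈ T, f * g = g * f}

/-- `S(A)`: the elements with support inside `A`. -/
def Sup {S : Type} {X : Type*} (supp : S → Set X) (A : Set X) : Set S := {f | supp f ⊆ A}

/-- `supp` is a support map making `S` supp-perfect. -/
def Perfect {S : Type} [Semigroup S] {X : Type*} (supp : S → Set X) : Prop :=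
  (∀ f g, supp (f * g) ⊆ supp f ∪ supp g) ∧
  (∀ f g, supp f ∩ supp g = ∅ → f * g = g * f) ∧
  (∀ f, (supp f).Finite) ∧
  (∀ F : Set X, F.Finite → F ⊆ ⋃ f, supp f → (Sup supp F).Finite) ∧
  ∀ F : Set X, F.Finite → F ⊆ ⋃ f, supp f → Sup supp F = C (Sup supp ((⋃ f, supp f) \ F))

inductive T
  | v : Finset ℝ → T
  | c : Bool → T

open Classical in
noncomputable def mul : T → T → T
  | .v a, .v b => .c (decide (¬ a ⊆ b ∧ ¬ b ⊆ a ∧ toColex a < toColex b))
  | _, _ => .c false

theorem mul_c (x : T) (b : Bool) : mul x (.c b) = .c false := by cases x <;> rfl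
theorem c_mul (x : T) (b : Bool) : mul (.c b) x = .c false := by cases x <;> rfl
theorem mul_eq (x y : T) : ∃ b, mul x y = .c b := by cases x <;> cases y <;> exact ⟨_, rfl⟩

noncomputable instance : Semigroup T where
  mul := mul
  mul_assoc x y z := by
    change mul (mul x y) z = mul x (mul y z)
    obtain ⟨b, hb⟩ := mul_eq x y
    obtain ⟨b', hb'⟩ := mul_eq y z
    rw [hb, hb', mul_c, c_mul]

theorem comm_c (x : T) (b : Bool) : x * T.c b = T.c b * x := (mul_c x b).trans (c_mul x b).symm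

theorem comm_v (a b : Finset ℝ) : T.v a * T.v b = T.v b * T.v a ↔ a ⊆ b ∨ b ⊆ a := by
  change mul _ _ = mul _ _ ↔ _
  simp only [mul, T.c.injEq, decide_eq_decide]
  constructor
  · intro h
    by_contra h1
    push Not at h1
    simp only [h1.1, h1.2, not_false_eq_true, true_and] at h
    rcases lt_trichotomy (toColex a) (toColex b) with h2 | h2 | h2
    · exact lt_asymm h2 (h.1 h2)
    · exact h1.1 (toColex.injective h2).le
    · exact lt_asymm h2 (h.2 h2)
  · rintro (h | h) <;> simp [h]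

theorem double (F : Set T) (hF : F.Finite) : (C (C F)).Finite := by
  classical
  obtain ⟨U, hU⟩ : ∃ U : Finset ℝ, ∀ a, T.v a ∈ F → a ⊆ U := by
    have h1 : {a | T.v a ∈ F}.Finite := hF.preimage fun _ _ _ _ h => T.v.inj h
    exact ⟨h1.toFinset.biUnion id, fun a ha =>
      Finset.subset_biUnion_of_mem id (h1.mem_toFinset.2 ha)⟩
  refine (((U.powerset.finite_toSet).image T.v).union (Set.finite_range T.c)).subset ?_
  rintro (g | b) hg
  · refine Or.inl ⟨g, ?_, rfl⟩
    obtain ⟨x, hx⟩ := Infinite.exists_notMem_finset (U ∪ g)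
    rw [Finset.mem_union, not_or] at hx
    have h1 : T.v (insert x U) ∈ C F := by
      rintro (a | b) ha
      · exact (comm_v _ _).2 (Or.inl ((hU a ha).trans (Finset.subset_insert _ _)))
      · exact (comm_c _ _).symm
    rcases (comm_v _ _).1 (hg _ h1) with h | h
    · exact absurd (h (Finset.mem_insert_self _ _)) hx.2
    · simp only [Finset.coe_powerset, Set.mem_preimage, Set.mem_powerset_iff, Finset.coe_subset]
      exact (Finset.subset_insert_iff_of_notMem hx.2).1 h
  · exact Or.inr ⟨b, rfl⟩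

theorem sunflower {X : Type*} (n : ℕ) : ∀ (s : ℝ → Set X) (W : Set ℝ), W.Infinite →
    (∀ r ∈ W, (s r).Finite ∧ (s r).ncard ≤ n) →
    ∃ (W' : Set ℝ) (ρ : Set X), W' ⊆ W ∧ W'.Infinite ∧ (∀ r ∈ W', ρ ⊆ s r) ∧
      ∀ x ∉ ρ, {r | r ∈ W' ∧ x ∈ s r}.Finite := by
  induction n with
  | zero =>
    intro s W hW h
    refine ⟨W, ∅, le_rfl, hW, fun _ _ => Set.empty_subset _, fun x _ => ?_⟩
    refine Set.finite_empty.subset fun r hr => ?_
    have := (Set.ncard_eq_zero (h r hr.1).1).1 (Nat.le_zero.1 (h r hr.1).2)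
    have h2 := hr.2
    rw [this] at h2
    exact h2
  | succ n ih =>
    intro s W hW h
    by_cases h1 : ∀ x, {r | r ∈ W ∧ x ∈ s r}.Finite
    · exact ⟨W, ∅, le_rfl, hW, fun _ _ => Set.empty_subset _, fun x _ => h1 x⟩
    push Not at h1
    obtain ⟨x, hx⟩ := h1
    obtain ⟨W', ρ, a1, a2, a3, a4⟩ := ih (fun r => s r \ {x}) _ hx fun r hr =>
      ⟨(h r hr.1).1.subset Set.sdiff_subset, by
        have := Set.ncard_sdiff_singleton_of_mem hr.2
        have := (h r hr.1).2
        omega⟩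
    refine ⟨W', insert x ρ, fun r hr => (a1 hr).1, a2, fun r hr => ?_, fun y hy => ?_⟩
    · exact Set.insert_subset (a1 hr).2 ((a3 r hr).trans Set.sdiff_subset)
    · rw [Set.mem_insert_iff, not_or] at hy
      exact (a4 y hy.2).subset fun r hr => ⟨hr.1, hr.2, hy.1⟩

/-- A semigroup with finite double centralizers that is not perfectly supportable. -/
theorem result : ∃ (S : Type) (_ : Semigroup S),
    (∀ F : Set S, F.Finite → (C (C F)).Finite) ∧
    ∀ (X : Type*) (supp : S → Set X), ¬ Perfect supp := by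
  refine ⟨T, inferInstance, double, ?_⟩
  rintro X supp ⟨-, h2, h3, h4, h5⟩
  obtain ⟨n, hn⟩ : ∃ n, {r : ℝ | (supp (T.v {r})).ncard = n}.Infinite := by
    by_contra h
    push Not at h
    refine Set.not_countable_univ (α := ℝ)
      ((Set.countable_iUnion fun n => (h n).countable).mono fun r _ => ?_)
    exact Set.mem_iUnion.2 ⟨_, rfl⟩
  obtain ⟨W, ρ, -, a2, a3, a4⟩ := sunflower n (fun r => supp (T.v {r})) _ hn
    fun r hr => ⟨h3 _, le_of_eq hr⟩
  obtain ⟨r₀, hr₀⟩ := a2.nonempty
  have b1 : ρ.Finite := (h3 _).subset (a3 r₀ hr₀)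
  have b2 : ρ ⊆ ⋃ f, supp f := (a3 r₀ hr₀).trans (Set.subset_iUnion _ _)
  have : Infinite T := Infinite.of_injective T.v fun _ _ h => T.v.inj h
  obtain ⟨g, hg⟩ := (h4 ρ b1 b2).exists_notMem
  rw [h5 ρ b1 b2] at hg
  simp only [C, Set.mem_ofPred_eq] at hg
  push Not at hg
  obtain ⟨f, hf, hfg⟩ := hg
  rcases f with a | b
  swap
  · exact hfg (comm_c _ _).symm
  have ha : a.Nonempty := by
    rw [Finset.nonempty_iff_ne_empty]
    rintro rfl
    rcases g with g | b
    · exact hfg ((comm_v _ _).2 (Or.inl (Finset.empty_subset _)))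
    · exact hfg (comm_c _ _)
  refine a2 ((((h3 (T.v a)).biUnion fun x hx => a4 x (hf hx).2).union a.finite_toSet).subset ?_)
  intro r hr
  by_cases h : supp (T.v a) ∩ supp (T.v {r}) = ∅
  · right
    rcases (comm_v _ _).1 (h2 _ _ h) with h6 | h6
    · obtain ⟨y, hy⟩ := ha
      exact Finset.mem_singleton.1 (h6 hy) ▸ hy
    · exact h6 (Finset.mem_singleton_self r)
  · obtain ⟨x, hx1, hx2⟩ := Set.nonempty_iff_ne_empty.2 h
    exact Or.inl (Set.mem_biUnion hx1 ⟨hr, hx2⟩)

end Pool.Agent.Results.MP_5e2b9f_al.NotSupportable
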